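import Mathlib
import Pool.Agent.Helper610.RM.Lower

set_option autoImplicit false

/-!
The Maker-Breaker clique game on `K_N`, uniformly random Maker against an optimal Breaker.

The clique size which the random Maker reaches with probability tending to `1` grows like `ln N`:
every size up to `(ln N) / 4` is reached against every (adaptive) Breaker, and no size above
`(2 + ε) ln N` is.
-/

namespace Pool.Agent.Results.MP_ecc80d_co.GrowthRate

open scoped ENNReal
open Filter Topology Pool.Agent.Helper610.RM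

lemma upper_tail : ∀ ε : ℝ, 0 < ε → Tendsto (fun N : ℕ => ⨆ q : ℕ, ⨆ _ : (2 + ε) * Real.log N ≤ q, p N q)
    atTop (𝓝 0) := by
  intro ε hε
  obtain ⟨C, hC⟩ := p_le_tail ε hε
  have hlog : Tendsto (fun N : ℕ => Real.log (N : ℝ)) atTop atTop :=
    Real.tendsto_log_atTop.comp tendsto_natCast_atTop_atTop
  have h1 : Tendsto (fun N : ℕ => C - ε / 4 * Real.log (N : ℝ)) atTop atBot := by
    have h2 : Tendsto (fun N : ℕ => ε / 4 * Real.log (N : ℝ)) atTop atTop :=
      hlog.const_mul_atTop (by positivity)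
    have h3 := tendsto_atBot_add_const_left atTop C (tendsto_neg_atTop_atBot.comp h2)
    refine h3.congr fun N => ?_
    simp [sub_eq_add_neg]
  have h4 : Tendsto (fun N : ℕ => ENNReal.ofReal (Real.exp (C - ε / 4 * Real.log (N : ℝ))))
      atTop (𝓝 0) := by
    have := (Real.tendsto_exp_atBot.comp h1)
    have h5 := ENNReal.tendsto_ofReal this
    simpa using h5
  refine tendsto_of_tendsto_of_tendsto_of_le_of_le' tendsto_const_nhds h4
    (Eventually.of_forall fun N => zero_le) ?_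
  filter_upwards [hC] with N hN
  exact iSup_le fun q => iSup_le fun hq => hN q hq

lemma upper_bound (q : ℕ → ℕ) (hq : Tendsto (fun N => p N (q N)) atTop (𝓝 1)) (ε : ℝ) (hε : 0 < ε) :
    ∀ᶠ N : ℕ in atTop, (q N : ℝ) ≤ (2 + ε) * Real.log N := by
  have h1 : ∀ᶠ N : ℕ in atTop, (1 / 2 : ℝ≥0∞) < p N (q N) :=
    hq.eventually_const_lt (by
      rw [one_div]; exact ENNReal.inv_lt_one.2 (by norm_num))
  have h2 := (upper_tail ε hε).eventually_lt_const (show (0 : ℝ≥0∞) < 1 / 2 by
    rw [one_div]; exact ENNReal.inv_pos.2 (by norm_num))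
  filter_upwards [h1, h2] with N hN1 hN2
  by_contra hcon
  push Not at hcon
  have h3 : p N (q N) ≤ ⨆ q : ℕ, ⨆ _ : (2 + ε) * Real.log N ≤ q, p N q :=
    le_iSup₂_of_le (q N) hcon.le le_rfl
  exact absurd (lt_of_le_of_lt h3 hN2) (not_lt.2 hN1.le)

lemma lower_tail : Tendsto (fun N : ℕ => ⨅ q : ℕ, ⨅ _ : (q : ℝ) ≤ Real.log N / 4, p N q)
    atTop (𝓝 1) := by
  have h0 : Tendsto (fun N : ℕ => 1 - ENNReal.ofReal (Real.exp (-(N : ℝ)))) atTop (𝓝 1) := by
    have h1 : Tendsto (fun N : ℕ => Real.exp (-(N : ℝ))) atTop (𝓝 0) :=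
      Real.tendsto_exp_atBot.comp (tendsto_neg_atTop_atBot.comp tendsto_natCast_atTop_atTop)
    have h2 : Tendsto (fun N : ℕ => ENNReal.ofReal (Real.exp (-(N : ℝ)))) atTop (𝓝 0) := by
      simpa using ENNReal.tendsto_ofReal h1
    have h3 := ENNReal.Tendsto.sub (tendsto_const_nhds (x := (1 : ℝ≥0∞)) (f := atTop)) h2
      (Or.inl ENNReal.one_ne_top)
    simpa using h3
  refine tendsto_of_tendsto_of_tendsto_of_le_of_le' h0 tendsto_const_nhds ?_ ?_
  · filter_upwards [lower_bound] with N hN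
    refine le_iInf fun q => le_iInf fun hq => ?_
    exact le_iInf fun σ => hN σ.1 σ.2 q hq
  · filter_upwards [eventually_ge_atTop 2] with N hN
    refine iInf₂_le_of_le 0 ?_ (p_le_one N 0 hN)
    have : (1 : ℝ) ≤ N := by exact_mod_cast (by omega : 1 ≤ N)
    have := Real.log_nonneg this
    simp only [Nat.cast_zero]
    positivity

/-- **Main theorem.**
(1) `p_N(q)` tends to `1` uniformly in `q ≤ (ln N) / 4`.
(2) For every `ε > 0`, `p_N(q)` tends to `0` uniformly in `q ≥ (2 + ε) ln N`.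
(3) So there is an admissible sequence, `p_N(q(N)) → 1`, with `q(N) > (ln N) / 4 - 1`, while every
admissible sequence satisfies `q(N) ≤ (2 + ε) ln N` for all large `N`: the maximal growth rate is
of order `ln N`. -/
theorem result :
    Tendsto (fun N : ℕ => ⨅ q : ℕ, ⨅ _ : (q : ℝ) ≤ Real.log N / 4, p N q) atTop (𝓝 1) ∧
    (∀ ε : ℝ, 0 < ε → Tendsto (fun N : ℕ => ⨆ q : ℕ, ⨆ _ : (2 + ε) * Real.log N ≤ q, p N q)
      atTop (𝓝 0)) ∧
    (∃ q : ℕ → ℕ, Tendsto (fun N => p N (q N)) atTop (𝓝 1) ∧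
      ∀ N : ℕ, Real.log N / 4 - 1 < q N) ∧
    (∀ q : ℕ → ℕ, Tendsto (fun N => p N (q N)) atTop (𝓝 1) →
      ∀ ε : ℝ, 0 < ε → ∀ᶠ N : ℕ in atTop, (q N : ℝ) ≤ (2 + ε) * Real.log N) := by
  refine ⟨lower_tail, upper_tail, ⟨fun N => ⌊Real.log N / 4⌋₊, ?_, ?_⟩, upper_bound⟩
  · refine tendsto_of_tendsto_of_tendsto_of_le_of_le' lower_tail tendsto_const_nhds ?_ ?_
    · filter_upwards [eventually_ge_atTop 1] with N hN
      refine iInf₂_le _ ?_
      apply Nat.floor_le
      have : (1 : ℝ) ≤ N := by exact_mod_cast hN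
      have := Real.log_nonneg this
      positivity
    · filter_upwards [eventually_ge_atTop 2] with N hN
      exact p_le_one N _ hN
  · intro N
    exact Nat.sub_one_lt_floor _

end Pool.Agent.Results.MP_ecc80d_co.GrowthRate
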