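import Mathlib
import Pool.Agent.Helper679.RMProof

set_option autoImplicit false

/-!
A uniformly random Maker against an optimal Breaker in the clique game on `K_N`.

We show that the random Maker does not get a clique on `(2 + ε) ln N` vertices: for every `ε > 0`,
`p_N(q) → 0` uniformly in `q ≥ (2 + ε) ln N`. So every admissible `q(N)` satisfies
`q(N) ≤ (2 + o(1)) ln N = (ln 2 + o(1)) q₁(N)`.

Breaker follows a fixed list of all edges, sorted by the circular distance of their ends on the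
cycle `0, 1, ..., N - 1`, and always claims the first unclaimed edge of the list.
-/

namespace Pool.Agent.Results.MP_ecc80d_co.RandomMaker

open scoped ENNReal
open Filter Topology Pool.Agent.Helper679.RandomMaker

/-- **Main theorem.** For every `ε > 0`, `p_N(q)` tends to `0` uniformly in `q ≥ (2 + ε) ln N`.
Consequently, if `p_N(q(N)) → 1`, then `q(N) ≤ (2 + ε) ln N` for all large `N`, and
`q(N) ≤ (ln 2 + ε) q₁(N)` for all large `N`, for every integer sequence `q₁` given by the known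
formula for the achievement number. -/
theorem result :
    (∀ ε : ℝ, 0 < ε → Tendsto (fun N : ℕ => ⨆ q : ℕ, ⨆ _ : (2 + ε) * Real.log N ≤ q, p N q)
      atTop (𝓝 0)) ∧
    (∀ q : ℕ → ℕ, Tendsto (fun N => p N (q N)) atTop (𝓝 1) →
      (∀ ε : ℝ, 0 < ε → ∀ᶠ N : ℕ in atTop, (q N : ℝ) ≤ (2 + ε) * Real.log N) ∧
      (∀ q₁ : ℕ → ℤ, (∃ r : ℕ → ℝ, Tendsto r atTop (𝓝 0) ∧ ∀ᶠ N : ℕ in atTop,
          q₁ N = ⌊2 * Real.logb 2 N - 2 * Real.logb 2 (Real.logb 2 N) +
            2 * Real.logb 2 (Real.exp 1) - 3 + r N⌋) →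
        ∀ ε : ℝ, 0 < ε → ∀ᶠ N : ℕ in atTop, (q N : ℝ) ≤ (Real.log 2 + ε) * q₁ N)) := by
  have tail : ∀ ε : ℝ, 0 < ε → Tendsto (fun N : ℕ => ⨆ q : ℕ, ⨆ _ : (2 + ε) * Real.log N ≤ q, p N q)
      atTop (𝓝 0) := by
    intro ε hε
    obtain ⟨C, hC⟩ := p_le_tail ε hε
    have hlog : Tendsto (fun N : ℕ => Real.log (N : ℝ)) atTop atTop :=
      Real.tendsto_log_atTop.comp tendsto_natCast_atTop_atTop
    have h1 : Tendsto (fun N : ℕ => C - ε / 4 * Real.log (N : ℝ)) atTop atBot := by
      have h2 : Tendsto (fun N : ℕ => ε / 4 * Real.log (N : ℝ)) atTop atTop :=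
        hlog.const_mul_atTop (by positivity)
      have h3 := tendsto_atBot_add_const_left atTop C (tendsto_neg_atTop_atBot.comp h2)
      refine h3.congr fun N => ?_
      simp [sub_eq_add_neg]
    have h4 : Tendsto (fun N : ℕ => ENNReal.ofReal (Real.exp (C - ε / 4 * Real.log (N : ℝ))))
        atTop (𝓝 0) := by
      have := (Real.tendsto_exp_atBot.comp h1)
      have h5 := ENNReal.tendsto_ofReal this
      simpa using h5
    refine tendsto_of_tendsto_of_tendsto_of_le_of_le' tendsto_const_nhds h4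
      (Eventually.of_forall fun N => zero_le) ?_
    filter_upwards [hC] with N hN
    exact iSup_le fun q => iSup_le fun hq => hN q hq
  have bound : ∀ q : ℕ → ℕ, Tendsto (fun N => p N (q N)) atTop (𝓝 1) →
      ∀ ε : ℝ, 0 < ε → ∀ᶠ N : ℕ in atTop, (q N : ℝ) ≤ (2 + ε) * Real.log N := by
    intro q hq ε hε
    have h1 : ∀ᶠ N : ℕ in atTop, (1 / 2 : ℝ≥0∞) < p N (q N) :=
      hq.eventually_const_lt (by
        rw [one_div]; exact ENNReal.inv_lt_one.2 (by norm_num))
    have h2 := (tail ε hε).eventually_lt_const (show (0 : ℝ≥0∞) < 1 / 2 by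
      rw [one_div]; exact ENNReal.inv_pos.2 (by norm_num))
    filter_upwards [h1, h2] with N hN1 hN2
    by_contra hcon
    push Not at hcon
    have h3 : p N (q N) ≤ ⨆ q : ℕ, ⨆ _ : (2 + ε) * Real.log N ≤ q, p N q :=
      le_iSup₂_of_le (q N) hcon.le le_rfl
    exact absurd (lt_of_le_of_lt h3 hN2) (not_lt.2 hN1.le)
  refine ⟨tail, fun q hq => ⟨bound q hq, ?_⟩⟩
  rintro q₁ ⟨r, hr, hq₁⟩ ε hε
  -- choose a small ε'
  have hlog2 : 0 < Real.log 2 := Real.log_pos (by norm_num)
  set η : ℝ := ε with hη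
  have hb := bound q hq ε hε
  -- log2 log2 N is small compared with log2 N
  have hlogb : Tendsto (fun N : ℕ => Real.logb 2 (N : ℝ)) atTop atTop :=
    (Real.tendsto_logb_atTop (by norm_num)).comp tendsto_natCast_atTop_atTop
  have hlittle : (fun x : ℝ => Real.log x) =o[atTop] (fun x => x) := Real.isLittleO_log_id_atTop
  have hsm : ∀ c : ℝ, 0 < c → ∀ᶠ N : ℕ in atTop,
      Real.log (Real.logb 2 (N : ℝ)) ≤ c * Real.logb 2 (N : ℝ) := by
    intro c hc
    have h1 := hlogb.eventually (hlittle.bound hc)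
    filter_upwards [h1, hlogb.eventually_ge_atTop 0] with N hN hN0
    have h2 := le_trans (le_abs_self _) hN
    rwa [Real.norm_eq_abs, abs_of_nonneg hN0] at h2
  -- finish
  have hc0 : 0 < ε * Real.log 2 / (4 * (Real.log 2 + ε)) := by positivity
  have hr1 : ∀ᶠ N : ℕ in atTop, -1 < r N := hr.eventually_const_lt (by norm_num)
  have hb' := bound q hq (ε / 2) (by positivity)
  filter_upwards [hb', hq₁, hr1, hsm _ hc0, hlogb.eventually_ge_atTop
    (5 * (Real.log 2 + ε) / (ε / 4)), hlogb.eventually_ge_atTop 1] with N h1 h2 h3 h4 h5 h6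
  set X : ℝ := Real.logb 2 (N : ℝ) with hX
  have hNX : Real.log (N : ℝ) = X * Real.log 2 := by
    rw [hX, Real.logb, div_mul_cancel₀ _ hlog2.ne']
  have hY : Real.logb 2 X ≤ ε / (4 * (Real.log 2 + ε)) * X := by
    rw [Real.logb, div_le_iff₀ hlog2]
    refine le_trans h4 (le_of_eq ?_)
    field_simp
  have he : 0 ≤ Real.logb 2 (Real.exp 1) := by
    rw [Real.logb, Real.log_exp]
    positivity
  have hfl : 2 * X - 2 * Real.logb 2 X - 5 ≤ (q₁ N : ℝ) := by
    rw [h2]
    have := Int.sub_one_lt_floor (2 * X - 2 * Real.logb 2 X + 2 * Real.logb 2 (Real.exp 1) - 3 + r N)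
    linarith
  have h5' : 5 * (Real.log 2 + ε) ≤ X * (ε / 4) := by
    rwa [div_le_iff₀ (by positivity)] at h5
  have hs : 0 < Real.log 2 + ε := by positivity
  have h7 : (Real.log 2 + ε) * (2 * X - 2 * Real.logb 2 X - 5) ≤ (Real.log 2 + ε) * q₁ N :=
    mul_le_mul_of_nonneg_left hfl hs.le
  have h8 : (Real.log 2 + ε) * Real.logb 2 X ≤ ε / 4 * X := by
    calc (Real.log 2 + ε) * Real.logb 2 X ≤ (Real.log 2 + ε) * (ε / (4 * (Real.log 2 + ε)) * X) :=
          mul_le_mul_of_nonneg_left hY hs.le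
      _ = ε / 4 * X := by field_simp
  have h9 : Real.log 2 ≤ 1 := by
    have := Real.log_two_lt_d9
    linarith
  rw [hNX] at h1
  nlinarith [mul_nonneg hε.le (by linarith : (0 : ℝ) ≤ X), mul_le_mul_of_nonneg_left h9
    (mul_nonneg hε.le (by linarith : (0 : ℝ) ≤ X))]

end Pool.Agent.Results.MP_ecc80d_co.RandomMaker
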